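import Pool.Agent.U498.TA.Asm

/-!
# Every invertible linear map is a product of elementary ones (project TA, package LIN)
-/

set_option autoImplicit false

open Set Filter Topology Metric Function Matrix
open scoped ContDiff NNReal

namespace Pool.Agent.U394.TA

open Pool.Agent.U498.TA

variable {n : ℕ}

theorem cont_single (i : Fin n) {f : E n → ℝ} (hf : Continuous f) :
    Continuous fun x : E n => x + EuclideanSpace.single i (f x) := by
  have h : (fun x : E n => x + EuclideanSpace.single i (f x)) =
      fun x : E n => x + f x • EuclideanSpace.single i (1 : ℝ) := by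
    funext x
    ext k
    by_cases hk : k = i
    · subst hk
      simp
    · simp [hk]
  rw [h]
  exact continuous_id.add (hf.smul continuous_const)

theorem cont_coord (i : Fin n) : Continuous fun x : E n => x i := by fun_prop

/-- the elementary maps `x ↦ x + c x_j e_i` -/
noncomputable def tv (i j : Fin n) (hij : j ≠ i) (c : ℝ) : E n ≃ₜ E n where
  toFun x := x + EuclideanSpace.single i (c * x j)
  invFun x := x + EuclideanSpace.single i (-c * x j)
  left_inv x := by
    ext k
    by_cases hk : k = i
    · subst hk
      simp [hij]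
    · simp [hk]
  right_inv x := by
    ext k
    by_cases hk : k = i
    · subst hk
      simp [hij]
    · simp [hk]
  continuous_toFun := cont_single i (continuous_const.mul (cont_coord j))
  continuous_invFun := cont_single i (continuous_const.mul (cont_coord j))

theorem tv_mem (i j : Fin n) (hij : j ≠ i) (c : ℝ) : tv i j hij c ∈ Submonoid.closure (Sm n) :=
  Submonoid.subset_closure ⟨i, fun x => c * x j, fun _ => rfl, Or.inr (Or.inl ⟨j, c, hij,
    fun _ => rfl⟩)⟩

/-- the elementary maps `x ↦ x + (d - 1) x_i e_i` -/
noncomputable def dg (i : Fin n) (d : ℝ) (hd : d ≠ 0) : E n ≃ₜ E n where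
  toFun x := x + EuclideanSpace.single i ((d - 1) * x i)
  invFun x := x + EuclideanSpace.single i ((d⁻¹ - 1) * x i)
  left_inv x := by
    ext k
    by_cases hk : k = i
    · subst hk
      simp
      field_simp
      ring
    · simp [hk]
  right_inv x := by
    ext k
    by_cases hk : k = i
    · subst hk
      simp
      field_simp
      ring
    · simp [hk]
  continuous_toFun := cont_single i (continuous_const.mul (cont_coord i))
  continuous_invFun := cont_single i (continuous_const.mul (cont_coord i))

theorem dg_mem (i : Fin n) (d : ℝ) (hd : d ≠ 0) : dg i d hd ∈ Submonoid.closure (Sm n) :=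
  Submonoid.subset_closure ⟨i, fun x => (d - 1) * x i, fun _ => rfl, Or.inr (Or.inr ⟨d - 1,
    fun _ => rfl⟩)⟩

/-- the matrix `M` gives a product of elementary maps -/
def PM (M : Matrix (Fin n) (Fin n) ℝ) : Prop :=
  ∃ g ∈ Submonoid.closure (Sm n), ∀ (x : E n) (k : Fin n), g x k = (M *ᵥ (fun l => x l)) k

theorem pm_diag (D : Fin n → ℝ) (hD : ∀ i, D i ≠ 0) : PM (diagonal D) := by
  classical
  have key : ∀ s : Finset (Fin n), ∃ g ∈ Submonoid.closure (Sm n), ∀ (x : E n) (k : Fin n),
      g x k = if k ∈ s then D k * x k else x k := by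
    intro s
    induction s using Finset.induction_on with
    | empty => exact ⟨1, one_mem _, fun x k => by simp⟩
    | insert a s ha ih =>
      obtain ⟨g, hg, h⟩ := ih
      refine ⟨dg a (D a) (hD a) * g, mul_mem (dg_mem _ _ _) hg, fun x k => ?_⟩
      have e : (dg a (D a) (hD a) * g) x k =
          g x k + (EuclideanSpace.single a ((D a - 1) * g x a) : E n) k := rfl
      rw [e]
      by_cases hk : k = a
      · subst hk
        rw [h x k, if_neg ha]
        simp
        ring
      · rw [h x k]
        simp [hk]
  obtain ⟨g, hg, h⟩ := key Finset.univ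
  refine ⟨g, hg, fun x k => ?_⟩
  rw [h x k, mulVec_diagonal]
  simp

/-- **LIN** -/
theorem t_LIN : S_LIN := by
  classical
  intro n A
  have key : ∀ M : Matrix (Fin n) (Fin n) ℝ, M.det ≠ 0 → PM M := by
    intro M hM
    refine Matrix.diagonal_transvection_induction_of_det_ne_zero PM M hM ?_ ?_ ?_
    · intro D hD
      rw [det_diagonal, Finset.prod_ne_zero_iff] at hD
      exact pm_diag D fun i => hD i (Finset.mem_univ i)
    · intro t
      refine ⟨tv t.i t.j t.hij.symm t.c, tv_mem _ _ _ _, fun x k => ?_⟩
      have e : tv t.i t.j t.hij.symm t.c x k =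
          x k + (EuclideanSpace.single t.i (t.c * x t.j) : E n) k := rfl
      rw [e, TransvectionStruct.toMatrix, transvection, add_mulVec, one_mulVec, Pi.add_apply]
      congr 1
      by_cases hk : k = t.i
      · rw [hk]
        simp [Matrix.single_mulVec]
      · simp [Matrix.single_mulVec, hk]
    · intro A B _ _ ⟨g, hg, h⟩ ⟨g', hg', h'⟩
      refine ⟨g * g', mul_mem hg hg', fun x k => ?_⟩
      have e : (g * g') x k = g (g' x) k := rfl
      rw [e, h]
      have e2 : (fun l => g' x l) = B *ᵥ (fun l => x l) := by
        funext l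
        exact h' x l
      rw [e2, mulVec_mulVec]
  obtain ⟨b, hb⟩ : ∃ b : Module.Basis (Fin n) ℝ (E n), ∀ (x : E n) (k : Fin n), b.repr x k = x k :=
    ⟨(EuclideanSpace.basisFun (Fin n) ℝ).toBasis, fun x k => by simp⟩
  have hdet : (LinearMap.toMatrix b b (A.toLinearEquiv : E n →ₗ[ℝ] E n)).det ≠ 0 := by
    rw [LinearMap.det_toMatrix]
    exact (LinearEquiv.isUnit_det' A.toLinearEquiv).ne_zero
  obtain ⟨g, hg, h⟩ := key _ hdet
  refine ⟨g, hg, fun x => ?_⟩
  ext k
  rw [h x k]
  have h1 := LinearMap.toMatrix_mulVec_repr b b (A.toLinearEquiv : E n →ₗ[ℝ] E n) x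
  have h2 : (b.repr x : Fin n → ℝ) = fun l => x l := by
    funext l
    exact hb x l
  rw [h2] at h1
  rw [h1, hb]
  rfl

end Pool.Agent.U394.TA
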